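import Pool.Agent.Lib_helper75.Part9

/-!
# Compacta splittable over Eberlein compacta have dense metrizable subspaces

Outline of the proof (all in `Pool.Agent.Lib_helper75.Part1` to `Part9`), for a compact Hausdorff
space `X` which is splittable over the class of Eberlein compact spaces:

* (density = weight) if `S ⊆ X` has at most `κ` points, then the points of `closure S` are
  separated by at most `κ` continuous real functions;
* (countable tightness) a subset of `X` containing the closures of its countable subsets is closed;
* (fragmentability) a weakly continuous map from `X` to a normed space has small norm oscillation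
  on suitable nonempty open subsets of any nonempty open set;
* the `G_δ` points of `X` are dense (a free sequence of length `ω₁` would contradict tightness);
* `X` has a `σ`-disjoint `π`-base: on an open set of homogeneous density `λ` one constructs by a
  transfinite diagonal argument a set `A` such that every weakly continuous map splitting `A` is
  large, in norm density, on all members of a `π`-base of size `λ`;
* a compact space with a `σ`-disjoint `π`-base and a dense set of `G_δ` points has a dense
  metrizable subspace.
-/

open Topology

universe u v w

namespace Pool.Agent.Results.MP_a63096_gt.DenseMetrizable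

/-- `Y` is Eberlein compact: it is homeomorphic to a subset of a real Banach space which is compact
in the weak topology. -/
def IsEberleinCompact (Y : Type v) [TopologicalSpace Y] : Prop :=
  ∃ (E : Type w) (_ : NormedAddCommGroup E) (_ : NormedSpace ℝ E) (_ : CompleteSpace E)
    (K : Set (WeakSpace ℝ E)), IsCompact K ∧ Nonempty (Y ≃ₜ K)

/-- `X` is splittable over the class of Eberlein compact spaces: for every subset `A` of `X` there
are an Eberlein compact space `Y` and a continuous map `f : X → Y` with `f⁻¹ (f A) = A`. -/
def SplittableOverEberlein (X : Type u) [TopologicalSpace X] : Prop :=
  ∀ A : Set X, ∃ (Y : Type v) (_ : TopologicalSpace Y) (f : X → Y),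
    IsEberleinCompact.{v, w} Y ∧ Continuous f ∧ f ⁻¹' (f '' A) = A

/-- Every compact Hausdorff space which is splittable over the class of Eberlein compact spaces has
a dense metrizable subspace. -/
theorem result (X : Type u) [TopologicalSpace X] [CompactSpace X] [T2Space X]
    (hX : SplittableOverEberlein.{u, v, w} X) :
    ∃ D : Set X, Dense D ∧ TopologicalSpace.MetrizableSpace D := by
  have h : SplitEberlein.Split.{u, w} X := by
    intro A
    obtain ⟨Y, _, f, ⟨E, _, _, _, K, _, ⟨e⟩⟩, hf, hfA⟩ := hX A
    refine ⟨E, inferInstance, inferInstance, fun x => ((e (f x) : K) : WeakSpace ℝ E), ?_, ?_⟩
    · intro φ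
      have h1 : Continuous fun x : X => ((e (f x) : K) : WeakSpace ℝ E) :=
        continuous_subtype_val.comp (e.continuous.comp hf)
      exact (WeakBilin.eval_continuous (topDualPairing ℝ E).flip φ).comp h1
    · intro x y hxy hxA
      have h2 : f x = f y := e.injective (Subtype.ext hxy)
      rw [← hfA]
      exact ⟨x, hxA, h2⟩
  exact h.dense_metrizable

end Pool.Agent.Results.MP_a63096_gt.DenseMetrizable
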